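import Pool.Agent.H108R3.Had.Main

set_option autoImplicit false

/-!
Weighing matrices of order `2 ^ t * n` and weight `2 ^ t * m` for all `m ≤ n`, as soon as
`t ≥ C ℓ (1 + log ℓ) ^ 2`, `ℓ = 1 + log log n`.
-/

namespace Pool.Agent.Results.MP_be2ccc_co.LogLogWeights

open Finset Matrix Pool.Agent.H108R3.Had

theorem entry {κ : Type} [Fintype κ] [DecidableEq κ] {S : ℕ} [NeZero S]
    {W : ℕ → κ → κ → ℤ} (N : ℕ)
    (hleft : ∀ (R : Type) [CommRing R] (u v : R), u * v = 1 →
      evM W S u * (evM W S v)ᵀ = ((N : ℕ) : R) • (1 : Matrix κ κ R))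
    (i i' : κ) (d : ZMod S) :
    ∑ j, ∑ n ∈ range S, ∑ m ∈ range S, (W n i j * W m i' j) *
      (if (n : ZMod S) - m = d then 1 else 0) =
      if i = i' ∧ d = 0 then ((N : ℕ) : ℤ) else 0 := by
  let u : AddMonoidAlgebra ℤ (ZMod S) := AddMonoidAlgebra.single 1 1
  let v : AddMonoidAlgebra ℤ (ZMod S) := AddMonoidAlgebra.single (-1) 1
  have huv : u * v = 1 := by
    change AddMonoidAlgebra.single (1 : ZMod S) (1 : ℤ) * AddMonoidAlgebra.single (-1) 1 = 1
    rw [AddMonoidAlgebra.single_mul_single, add_neg_cancel, mul_one]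
    rfl
  have h := hleft (AddMonoidAlgebra ℤ (ZMod S)) u v huv
  have h1 := congrFun (congrFun h i) i'
  rw [Matrix.mul_apply] at h1
  have h2 : ∀ n m : ℕ, u ^ n * v ^ m = AddMonoidAlgebra.single ((n : ZMod S) - m) (1 : ℤ) := by
    intro n m
    change AddMonoidAlgebra.single (1 : ZMod S) (1 : ℤ) ^ n *
      AddMonoidAlgebra.single (-1 : ZMod S) (1 : ℤ) ^ m = _
    rw [AddMonoidAlgebra.single_pow, AddMonoidAlgebra.single_pow,
      AddMonoidAlgebra.single_mul_single, one_pow, one_pow, mul_one]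
    congr 1
    rw [nsmul_eq_mul, nsmul_eq_mul, mul_one, mul_neg, mul_one, sub_eq_add_neg]
  have h3 : ∀ j, evM W S u i j * (evM W S v)ᵀ j i' = ∑ n ∈ range S, ∑ m ∈ range S,
      (W n i j * W m i' j) • AddMonoidAlgebra.single ((n : ZMod S) - m) (1 : ℤ) := by
    intro j
    change (∑ n ∈ range S, ((W n i j : ℤ) : AddMonoidAlgebra ℤ (ZMod S)) * u ^ n) *
      (∑ n ∈ range S, ((W n i' j : ℤ) : AddMonoidAlgebra ℤ (ZMod S)) * v ^ n) = _
    rw [Finset.sum_mul_sum]
    refine Finset.sum_congr rfl fun n _ => Finset.sum_congr rfl fun m _ => ?_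
    rw [← h2, zsmul_eq_mul, Int.cast_mul]
    ring
  have h4 := congrArg (fun x : AddMonoidAlgebra ℤ (ZMod S) => x.coeff d) h1
  simp only [h3] at h4
  have h5 : ∀ (z : ℤ) (n m : ℕ), (z • AddMonoidAlgebra.single ((n : ZMod S) - m) (1 : ℤ)).coeff d =
      z * (if (n : ZMod S) - m = d then 1 else 0) := by
    intro z n m
    rw [AddMonoidAlgebra.coeff_smul_apply, AddMonoidAlgebra.coeff_single, Finsupp.single_apply, smul_eq_mul]
  simp only [AddMonoidAlgebra.coeff_sum, Finsupp.finsetSum_apply, h5] at h4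
  rw [h4, Matrix.smul_apply, Matrix.one_apply]
  by_cases hi : i = i'
  · by_cases hd : d = 0
    · rw [if_pos hi, if_pos ⟨hi, hd⟩, smul_eq_mul, mul_one, hd]
      have h6 : ((N : ℕ) : AddMonoidAlgebra ℤ (ZMod S)) =
          AddMonoidAlgebra.single 0 ((N : ℕ) : ℤ) := by
        rw [AddMonoidAlgebra.natCast_def]
      rw [h6, AddMonoidAlgebra.coeff_single, Finsupp.single_apply, if_pos rfl]
    · rw [if_pos hi, if_neg (fun h => hd h.2), smul_eq_mul, mul_one]
      have h6 : ((N : ℕ) : AddMonoidAlgebra ℤ (ZMod S)) =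
          AddMonoidAlgebra.single 0 ((N : ℕ) : ℤ) := by
        rw [AddMonoidAlgebra.natCast_def]
      rw [h6, AddMonoidAlgebra.coeff_single, Finsupp.single_apply, if_neg (Ne.symm hd)]
  · rw [if_neg hi, if_neg (fun h => hi h.1), smul_zero]
    rfl

/-- truncation of the coefficients -/
def tr {κ : Type} (W : ℕ → κ → κ → ℤ) (m : ℕ) : ℕ → κ → κ → ℤ :=
  fun n i j => if n < m then W n i j else 0

theorem evM_tr {κ : Type} {R : Type} [CommRing R] (W : ℕ → κ → κ → ℤ) {m S : ℕ} (h : m ≤ S)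
    (u : R) : evM (tr W m) S u = evM W m u := by
  ext i j
  change ∑ n ∈ range S, ((tr W m n i j : ℤ) : R) * u ^ n = ∑ n ∈ range m, ((W n i j : ℤ) : R) * u ^ n
  have hsub : range m ⊆ range S := Finset.range_mono h
  rw [← Finset.sum_subset hsub]
  · refine Finset.sum_congr rfl fun n hn => ?_
    rw [tr, if_pos (mem_range.1 hn)]
  · intro n _ hn
    rw [tr, if_neg (fun h => hn (mem_range.2 h)), Int.cast_zero, zero_mul]

/-- block circulant weighing matrices -/
theorem weigh {t m S : ℕ} (hS : 1 ≤ S) (hm : m ≤ S) (h : PUk t m) :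
    ∃ A : Matrix (Fin (2 ^ t * S)) (Fin (2 ^ t * S)) ℤ,
      (∀ i j, A i j = 0 ∨ A i j = 1 ∨ A i j = -1) ∧
      A.transpose * A = ((2 ^ t * m : ℕ) : ℤ) • (1 : Matrix _ _ ℤ) ∧
      A * A.transpose = ((2 ^ t * m : ℕ) : ℤ) • (1 : Matrix _ _ ℤ) := by
  have : NeZero S := ⟨by omega⟩
  obtain ⟨W, hW⟩ := h
  let e : Fin (2 ^ t * S) ≃ Fin (2 ^ t) × ZMod S := Fintype.equivOfCardEq (by
    rw [Fintype.card_prod, Fintype.card_fin, Fintype.card_fin, ZMod.card])
  let H' : Matrix (Fin (2 ^ t) × ZMod S) (Fin (2 ^ t) × ZMod S) ℤ :=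
    Matrix.of fun p q => tr W m (q.2 - p.2).val p.1 q.1
  have hl : ∀ (R : Type) [CommRing R] (u v : R), u * v = 1 →
      evM (tr W m) S u * (evM (tr W m) S v)ᵀ = ((2 ^ t * m : ℕ) : R) • (1 : Matrix _ _ R) := by
    intro R _ u v huv
    rw [evM_tr W hm, evM_tr W hm, hW.left R u v huv, Fintype.card_fin]
  have hr : ∀ (R : Type) [CommRing R] (u v : R), u * v = 1 →
      evM (fun n i j => tr W m n j i) S u * (evM (fun n i j => tr W m n j i) S v)ᵀ =
        ((2 ^ t * m : ℕ) : R) • (1 : Matrix _ _ R) := by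
    intro R _ u v huv
    have e1 : evM (fun n i j => tr W m n j i) S u = (evM (tr W m) S u)ᵀ := rfl
    have e2 : evM (fun n i j => tr W m n j i) S v = (evM (tr W m) S v)ᵀ := rfl
    rw [e1, e2, transpose_transpose, evM_tr W hm, evM_tr W hm,
      hW.right R v u (by rw [mul_comm]; exact huv), Fintype.card_fin]
  have key : H' * H'ᵀ = ((2 ^ t * m : ℕ) : ℤ) • (1 : Matrix _ _ ℤ) := by
    ext p q
    rw [Matrix.mul_apply, Fintype.sum_prod_type, Matrix.smul_apply, Matrix.one_apply]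
    have h1 : ∀ j : Fin (2 ^ t), ∑ b : ZMod S, H' p (j, b) * H'ᵀ (j, b) q =
        ∑ n ∈ range S, ∑ k ∈ range S, (tr W m n p.1 j * tr W m k q.1 j) *
          (if (n : ZMod S) - k = q.2 - p.2 then 1 else 0) := by
      intro j
      rw [P7_corr S (fun n => tr W m n p.1 j) (fun k => tr W m k q.1 j)]
      rfl
    simp only [h1]
    rw [entry (2 ^ t * m) hl, smul_eq_mul]
    by_cases hpq : p = q
    · rw [if_pos hpq, if_pos ⟨congrArg Prod.fst hpq, by rw [hpq, sub_self]⟩, mul_one]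
    · rw [if_neg hpq, if_neg, mul_zero]
      rintro ⟨h2, h3⟩
      exact hpq (Prod.ext h2 (sub_eq_zero.1 h3).symm)
  have key2 : H'ᵀ * H' = ((2 ^ t * m : ℕ) : ℤ) • (1 : Matrix _ _ ℤ) := by
    ext p q
    rw [Matrix.mul_apply, Fintype.sum_prod_type, Matrix.smul_apply, Matrix.one_apply]
    have h1 : ∀ j : Fin (2 ^ t), ∑ b : ZMod S, H'ᵀ p (j, b) * H' (j, b) q =
        ∑ n ∈ range S, ∑ k ∈ range S,
          ((fun n i j => tr W m n j i) n p.1 j * (fun n i j => tr W m n j i) k q.1 j) *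
          (if (n : ZMod S) - k = -q.2 - -p.2 then 1 else 0) := by
      intro j
      rw [P7_corr S (fun n => tr W m n j p.1) (fun k => tr W m k j q.1), ← Equiv.sum_comp (Equiv.neg (ZMod S))]
      refine Finset.sum_congr rfl fun b _ => ?_
      change tr W m (p.2 - -b).val j p.1 * tr W m (q.2 - -b).val j q.1 =
        tr W m (b - -p.2).val j p.1 * tr W m (b - -q.2).val j q.1
      rw [show p.2 - -b = b - -p.2 by ring, show q.2 - -b = b - -q.2 by ring]
    simp only [h1]
    rw [entry (2 ^ t * m) hr, smul_eq_mul]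
    by_cases hpq : p = q
    · rw [if_pos hpq, if_pos ⟨congrArg Prod.fst hpq, by rw [hpq, sub_self]⟩, mul_one]
    · rw [if_neg hpq, if_neg, mul_zero]
      rintro ⟨h2, h3⟩
      exact hpq (Prod.ext h2 (neg_injective (sub_eq_zero.1 h3)).symm)
  refine ⟨H'.submatrix e e, fun i j => ?_, ?_, ?_⟩
  · change tr W m _ _ _ = 0 ∨ tr W m _ _ _ = 1 ∨ tr W m _ _ _ = -1
    unfold tr
    split_ifs with hlt
    · exact Or.inr (hW.sign _ hlt _ _)
    · exact Or.inl rfl
  · rw [Matrix.transpose_submatrix, Matrix.submatrix_mul_equiv, key2]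
    ext a b
    rw [Matrix.submatrix_apply, Matrix.smul_apply, Matrix.smul_apply, Matrix.one_apply,
      Matrix.one_apply]
    by_cases hab : a = b
    · rw [if_pos hab, if_pos (congrArg e hab)]
    · rw [if_neg hab, if_neg (fun h => hab (e.injective h))]
  · rw [Matrix.transpose_submatrix, Matrix.submatrix_mul_equiv, key]
    ext a b
    rw [Matrix.submatrix_apply, Matrix.smul_apply, Matrix.smul_apply, Matrix.one_apply,
      Matrix.one_apply]
    by_cases hab : a = b
    · rw [if_pos hab, if_pos (congrArg e hab)]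
    · rw [if_neg hab, if_neg (fun h => hab (e.injective h))]

theorem bound_mono {C : ℝ} (hC : 1 ≤ C) {q q' : ℕ} (hq : 3 ≤ q) (hqq' : q ≤ q') :
    C * (1 + Real.log (Real.log q)) * (1 + Real.log (1 + Real.log (Real.log q))) ^ 2 ≤
      C * (1 + Real.log (Real.log q')) * (1 + Real.log (1 + Real.log (Real.log q'))) ^ 2 := by
  have hq3 : (3 : ℝ) ≤ q := by exact_mod_cast hq
  have hl := loglog_pos hq
  have hqr : (q : ℝ) ≤ q' := by exact_mod_cast hqq'
  have h1' : Real.log q ≤ Real.log q' := Real.log_le_log (by linarith) hqr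
  have h0 : 0 < Real.log q := Real.log_pos (by linarith)
  have h2' : Real.log (Real.log q) ≤ Real.log (Real.log q') := Real.log_le_log h0 h1'
  have h3' : Real.log (1 + Real.log (Real.log q)) ≤ Real.log (1 + Real.log (Real.log q')) :=
    Real.log_le_log (by linarith) (by linarith)
  have h4' : 0 ≤ Real.log (1 + Real.log (Real.log q)) := Real.log_nonneg (by linarith)
  have h5 : (1 + Real.log (1 + Real.log (Real.log q))) ^ 2 ≤
      (1 + Real.log (1 + Real.log (Real.log q'))) ^ 2 :=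
    pow_le_pow_left₀ (by linarith) (by linarith) 2
  have h6 : C * (1 + Real.log (Real.log q)) ≤ C * (1 + Real.log (Real.log q')) :=
    mul_le_mul_of_nonneg_left (by linarith) (by linarith)
  exact mul_le_mul h6 h5 (sq_nonneg _) (mul_nonneg (by linarith) (by linarith))

/-- There is a constant `C` such that for all `n ≥ 3`, all `t ≥ C ℓ (1 + log ℓ) ^ 2` with
`ℓ = 1 + log log n`, and all `m ≤ n`, there is a weighing matrix of order `2 ^ t * n` and weight
`2 ^ t * m`. -/
theorem result : ∃ C : ℝ, 1 ≤ C ∧ ∀ n t : ℕ, 3 ≤ n →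
    C * (1 + Real.log (Real.log n)) * (1 + Real.log (1 + Real.log (Real.log n))) ^ 2 ≤ t →
    ∀ m : ℕ, m ≤ n →
      ∃ A : Matrix (Fin (2 ^ t * n)) (Fin (2 ^ t * n)) ℤ,
        (∀ i j, A i j = 0 ∨ A i j = 1 ∨ A i j = -1) ∧
        A.transpose * A = ((2 ^ t * m : ℕ) : ℤ) • (1 : Matrix _ _ ℤ) ∧
        A * A.transpose = ((2 ^ t * m : ℕ) : ℤ) • (1 : Matrix _ _ ℤ) := by
  obtain ⟨C, hC, h⟩ := pu_loglog
  refine ⟨C, hC, fun n t hn ht m hm => weigh (by omega) hm ?_⟩
  have hl := loglog_pos hn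
  have ht1 : 1 ≤ t := by
    have h4' : 0 ≤ Real.log (1 + Real.log (Real.log n)) := Real.log_nonneg (by linarith)
    have h5 : 1 ≤ (1 + Real.log (1 + Real.log (Real.log n))) ^ 2 := by nlinarith
    have h6 : 1 ≤ C * (1 + Real.log (Real.log n)) := by nlinarith
    have h7 : (1 : ℝ) ≤ t := by nlinarith
    exact_mod_cast h7
  rcases lt_or_ge m 3 with h3 | h3
  · have hs' : m = 0 ∨ m = 1 ∨ m = 2 := by omega
    have h12 : PUk 1 2 := by
      have := t_P4 t_P1 1 1 le_rfl (lift 0 1 t_P2.2)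
      simpa using this
    rcases hs' with rfl | rfl | rfl
    · exact PUk_mono lift (Nat.zero_le _) t_P2.1
    · exact PUk_mono lift (Nat.zero_le _) t_P2.2
    · exact PUk_mono lift ht1 h12
  · exact h m t h3 ((bound_mono hC h3 hm).trans ht)

end Pool.Agent.Results.MP_be2ccc_co.LogLogWeights
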